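import Mathlib
import Pool.Agent.V1184.NetDyn

/-! A real-analytic diffeomorphism of the 2-torus all of whose invariant measures satisfy the strict
Ruelle inequality. -/

open Filter Topology MeasureTheory Set
open scoped ContDiff

namespace Pool.Agent.Results.MP_794bd6_an.HeteroclinicNet

open Pool.Agent.V1184.Net

/-- The torus `(ℝ/2πℤ)²`. -/
abbrev T2 : Type := AddCircle (2 * Real.pi) × AddCircle (2 * Real.pi)

/-- The covering map `ℝ² → (ℝ/2πℤ)²`. -/
noncomputable def proj (p : ℝ × ℝ) : T2 := ((p.1 : AddCircle (2 * Real.pi)), (p.2 : AddCircle (2 * Real.pi)))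

/-- `f` is a real-analytic diffeomorphism of the torus: it is a homeomorphism with a real-analytic
lift `F` to the plane which is bijective with real-analytic inverse. -/
structure IsAnalyticDiffeo (f : T2 → T2) (F : ℝ × ℝ → ℝ × ℝ) : Prop where
  homeo : IsHomeomorph f
  lift : ∀ p, f (proj p) = proj (F p)
  smooth : ContDiff ℝ ω F
  inverse : ∃ G : ℝ × ℝ → ℝ × ℝ, ContDiff ℝ ω G ∧ (∀ p, G (F p) = p) ∧ (∀ p, F (G p) = p)

/-- The itinerary of length `n` of `x` with respect to the partition into the fibres of `P`. -/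
def itinerary {k : ℕ} (f : T2 → T2) (P : T2 → Fin k) (n : ℕ) (x : T2) : Fin n → Fin k :=
  fun i => P (f^[i] x)

/-- The entropy `H(⋁_{i<n} f⁻ⁱ P)`. -/
noncomputable def joinEntropy {k : ℕ} (f : T2 → T2) (ρ : Measure T2) (P : T2 → Fin k) (n : ℕ) : ℝ :=
  ∑ w : Fin n → Fin k, Real.negMulLog (ρ.real (itinerary f P n ⁻¹' {w}))

/-- Kolmogorov–Sinai entropy `h(ρ)`: supremum over finite measurable partitions. -/
noncomputable def entropy (f : T2 → T2) (ρ : Measure T2) : EReal :=
  ⨆ (k : ℕ) (P : T2 → Fin k) (_ : Measurable P),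
    ((limsup (fun n : ℕ => joinEntropy f ρ P n / n) atTop : ℝ) : EReal)

/-- A lift of a point of the torus. -/
noncomputable def rep (x : T2) : ℝ × ℝ := (Quotient.out x.1, Quotient.out x.2)

/-- `χ₊(x) = lim (1/n) log ‖Λ T_x fⁿ‖`, where `T_x fⁿ` is read in the covering plane. -/
noncomputable def chiPlus (F : ℝ × ℝ → ℝ × ℝ) (x : T2) : ℝ :=
  limUnder atTop (fun n : ℕ => Real.log (lamNorm (fderiv ℝ (F^[n]) (rep x))) / n)

/-! ### The torus map -/

lemma proj_rep (x : T2) : proj (rep x) = x := by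
  ext
  · exact Quotient.out_eq x.1
  · exact Quotient.out_eq x.2

/-- sine on the circle -/
noncomputable def sn (t : AddCircle (2 * Real.pi)) : ℝ := Real.Angle.sin t

/-- cosine on the circle -/
noncomputable def cs (t : AddCircle (2 * Real.pi)) : ℝ := Real.Angle.cos t

lemma sn_coe (x : ℝ) : sn (x : AddCircle (2 * Real.pi)) = Real.sin x := Real.Angle.sin_coe x
lemma cs_coe (x : ℝ) : cs (x : AddCircle (2 * Real.pi)) = Real.cos x := Real.Angle.cos_coe x
lemma continuous_sn : Continuous sn := Real.Angle.continuous_sin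
lemma continuous_cs : Continuous cs := Real.Angle.continuous_cos

/-- The torus map. -/
noncomputable def ft (x : T2) : T2 :=
  (x.1 + (((sn x.1 * cs x.2 - sn x.1 * cs x.1 * (sn x.2 * sn x.2)) / 16 : ℝ) :
      AddCircle (2 * Real.pi)),
   x.2 + (((-(sn x.2 * cs x.1 + sn x.2 * cs x.2 * (sn x.1 * sn x.1))) / 16 : ℝ) :
      AddCircle (2 * Real.pi)))

lemma ft_proj (p : ℝ × ℝ) : ft (proj p) = proj (F p) := by
  unfold ft proj F X1 X2
  simp only [sn_coe, cs_coe]
  rfl

lemma ft_eq (x : T2) : ft x = proj (F (rep x)) := by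
  conv_lhs => rw [← proj_rep x]
  exact ft_proj _

lemma continuous_ft : Continuous ft := by
  have h1 := continuous_sn
  have h2 := continuous_cs
  have hc : Continuous fun t : ℝ => (t : AddCircle (2 * Real.pi)) := AddCircle.continuous_mk' _
  unfold ft
  refine Continuous.prodMk ?_ ?_
  · exact continuous_fst.add (hc.comp (by fun_prop))
  · exact continuous_snd.add (hc.comp (by fun_prop))

lemma coe_eq_iff (x y : ℝ) : (x : AddCircle (2 * Real.pi)) = y ↔
    ∃ m : ℤ, x = y + m * (2 * Real.pi) := by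
  rw [← sub_eq_zero, ← AddCircle.coe_sub, AddCircle.coe_eq_zero_iff]
  constructor
  · rintro ⟨m, hm⟩
    refine ⟨m, ?_⟩
    rw [zsmul_eq_mul] at hm
    linarith
  · rintro ⟨m, hm⟩
    refine ⟨m, ?_⟩
    rw [zsmul_eq_mul]
    linarith

lemma proj_eq_iff (p q : ℝ × ℝ) : proj p = proj q ↔
    ∃ m n : ℤ, p = (q.1 + m * (2 * Real.pi), q.2 + n * (2 * Real.pi)) := by
  unfold proj
  rw [Prod.mk.injEq, coe_eq_iff, coe_eq_iff]
  constructor
  · rintro ⟨⟨m, hm⟩, ⟨n, hn⟩⟩
    exact ⟨m, n, Prod.ext hm hn⟩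
  · rintro ⟨m, n, h⟩
    exact ⟨⟨m, congrArg Prod.fst h⟩, ⟨n, congrArg Prod.snd h⟩⟩

lemma F_shift (q : ℝ × ℝ) (m n : ℤ) : F (q.1 + m * (2 * Real.pi), q.2 + n * (2 * Real.pi)) =
    ((F q).1 + m * (2 * Real.pi), (F q).2 + n * (2 * Real.pi)) := by
  simp only [F, X1, X2, Real.sin_add_int_mul_two_pi, Real.cos_add_int_mul_two_pi]
  ext
  · simp only; ring
  · simp only; ring

lemma ft_injective : Function.Injective ft := by
  intro x y h
  rw [ft_eq, ft_eq, proj_eq_iff] at h
  obtain ⟨m, n, h⟩ := h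
  rw [← F_shift] at h
  have h2 := Fh.injective h
  rw [← proj_rep x, ← proj_rep y, proj_eq_iff]
  exact ⟨m, n, h2⟩

lemma ft_surjective : Function.Surjective ft := by
  intro y
  refine ⟨proj (Fh.symm (rep y)), ?_⟩
  rw [ft_proj, ← Fh_apply, Fh.apply_symm_apply, proj_rep]

instance : Fact (0 < 2 * Real.pi) := ⟨Real.two_pi_pos⟩

lemma isDiffeo : IsAnalyticDiffeo ft F := by
  refine ⟨?_, ft_proj, contDiff_F, Fh.symm, contDiff_inv, fun p => ?_, fun p => ?_⟩
  · rw [isHomeomorph_iff_continuous_bijective]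
    exact ⟨continuous_ft, ft_injective, ft_surjective⟩
  · rw [← Fh_apply, Fh.symm_apply_apply]
  · rw [← Fh_apply, Fh.apply_symm_apply]

/-! ### Invariant measures -/

/-- A bounded measurable function which does not increase along orbits is invariant a.e. -/
lemma ae_eq_of_le {ρ : Measure T2} [IsProbabilityMeasure ρ] (hρ : MeasurePreserving ft ρ ρ)
    {U : T2 → ℝ} (hU : Measurable U) {K : ℝ} (hK : ∀ x, |U x| ≤ K) (hle : ∀ x, U (ft x) ≤ U x) :
    ∀ᵐ x ∂ρ, U (ft x) = U x := by
  have hi : Integrable U ρ :=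
    Integrable.of_bound hU.aestronglyMeasurable K (Eventually.of_forall hK)
  have hi2 : Integrable (fun x => U (ft x)) ρ :=
    Integrable.of_bound (hU.comp hρ.measurable).aestronglyMeasurable K
      (Eventually.of_forall fun x => hK _)
  have h1 : ∫ x, U (ft x) ∂ρ = ∫ x, U x ∂ρ := by
    have := integral_map (μ := ρ) (φ := ft) hρ.measurable.aemeasurable
      (f := U) hU.aestronglyMeasurable
    rw [hρ.map_eq] at this
    exact this.symm
  have h2 : ∫ x, (U x - U (ft x)) ∂ρ = 0 := by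
    rw [integral_sub hi hi2, h1, sub_self]
  have h3 := (integral_eq_zero_iff_of_nonneg (μ := ρ) (f := fun x => U x - U (ft x))
    (fun x => sub_nonneg.2 (hle x)) (hi.sub hi2)).1 h2
  filter_upwards [h3] with x hx
  have : U x - U (ft x) = 0 := hx
  linarith

lemma sn_ft (x : T2) : sn (ft x).1 = Real.sin (F (rep x)).1 ∧ sn (ft x).2 = Real.sin (F (rep x)).2 ∧
    cs (ft x).1 = Real.cos (F (rep x)).1 ∧ cs (ft x).2 = Real.cos (F (rep x)).2 := by
  rw [ft_eq]
  exact ⟨sn_coe _, sn_coe _, cs_coe _, cs_coe _⟩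

lemma sn_rep (x : T2) : sn x.1 = Real.sin (rep x).1 ∧ sn x.2 = Real.sin (rep x).2 ∧
    cs x.1 = Real.cos (rep x).1 ∧ cs x.2 = Real.cos (rep x).2 := by
  have h := proj_rep x
  have h1 : ((rep x).1 : AddCircle (2 * Real.pi)) = x.1 := congrArg Prod.fst h
  have h2 : ((rep x).2 : AddCircle (2 * Real.pi)) = x.2 := congrArg Prod.snd h
  rw [← sn_coe, ← sn_coe, ← cs_coe, ← cs_coe, h1, h2]
  exact ⟨rfl, rfl, rfl, rfl⟩

lemma measurable_sn : Measurable sn := continuous_sn.measurable
lemma measurable_cs : Measurable cs := continuous_cs.measurable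

lemma abs_sn (t : AddCircle (2 * Real.pi)) : |sn t| ≤ 1 := by
  obtain ⟨x, rfl⟩ := QuotientAddGroup.mk_surjective t
  exact (sn_coe x) ▸ Real.abs_sin_le_one x

lemma abs_cs (t : AddCircle (2 * Real.pi)) : |cs t| ≤ 1 := by
  obtain ⟨x, rfl⟩ := QuotientAddGroup.mk_surjective t
  exact (cs_coe x) ▸ Real.abs_cos_le_one x

/-- Invariant measures live on the critical points of `sin x sin y`. -/
lemma ae_critical {ρ : Measure T2} [IsProbabilityMeasure ρ] (hρ : MeasurePreserving ft ρ ρ) :
    ∀ᵐ x ∂ρ, (sn x.1 = 0 ∧ sn x.2 = 0) ∨ (cs x.1 = 0 ∧ cs x.2 = 0) := by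
  classical
  have m1 : Measurable fun x : T2 => sn x.1 := measurable_sn.comp measurable_fst
  have m2 : Measurable fun x : T2 => sn x.2 := measurable_sn.comp measurable_snd
  have m3 : Measurable fun x : T2 => cs x.1 := measurable_cs.comp measurable_fst
  have m4 : Measurable fun x : T2 => cs x.2 := measurable_cs.comp measurable_snd
  -- first function
  have hV := ae_eq_of_le hρ (U := fun x => sn x.1 ^ 2 * sn x.2 ^ 2) (by fun_prop) (K := 1)
    (fun x => by
      rw [← mul_pow, abs_pow]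
      exact pow_le_one₀ (abs_nonneg _) (abs_prod_le (abs_sn _) (abs_sn _)))
    (fun x => by
      obtain ⟨a1, a2, a3, a4⟩ := sn_ft x
      obtain ⟨b1, b2, b3, b4⟩ := sn_rep x
      rw [a1, a2, b1, b2]
      exact (lyap _ _).1)
  -- second function
  have hU1 := ae_eq_of_le hρ (U := fun x => if sn x.1 = 0 then -(cs x.1 * cs x.2) else 0)
    (Measurable.ite (m1 (measurableSet_singleton 0)) (by fun_prop) measurable_const) (K := 1)
    (fun x => by
      split_ifs
      · rw [abs_neg]; exact abs_prod_le (abs_cs _) (abs_cs _)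
      · simp)
    (fun x => by
      obtain ⟨a1, a2, a3, a4⟩ := sn_ft x
      obtain ⟨b1, b2, b3, b4⟩ := sn_rep x
      rw [a1, a3, a4, b1, b3, b4]
      by_cases h : Real.sin (rep x).1 = 0
      · rw [if_pos h, if_pos ((sin_F_fst (rep x).1 (rep x).2).2 h)]
        exact (net_vert h).1
      · rw [if_neg h, if_neg (fun h' => h ((sin_F_fst (rep x).1 (rep x).2).1 h'))])
  -- third function
  have hU2 := ae_eq_of_le hρ (U := fun x => if sn x.2 = 0 then (cs x.1 * cs x.2) else 0)
    (Measurable.ite (m2 (measurableSet_singleton 0)) (by fun_prop) measurable_const) (K := 1)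
    (fun x => by
      split_ifs
      · exact abs_prod_le (abs_cs _) (abs_cs _)
      · simp)
    (fun x => by
      obtain ⟨a1, a2, a3, a4⟩ := sn_ft x
      obtain ⟨b1, b2, b3, b4⟩ := sn_rep x
      rw [a2, a3, a4, b2, b3, b4]
      by_cases h : Real.sin (rep x).2 = 0
      · rw [if_pos h, if_pos ((sin_F_snd (rep x).1 (rep x).2).2 h)]
        exact (net_horiz h).1
      · rw [if_neg h, if_neg (fun h' => h ((sin_F_snd (rep x).1 (rep x).2).1 h'))])
  filter_upwards [hV, hU1, hU2] with x h0 h1 h2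
  obtain ⟨a1, a2, a3, a4⟩ := sn_ft x
  obtain ⟨b1, b2, b3, b4⟩ := sn_rep x
  rw [a1, a2, b1, b2] at h0
  rw [a1, a3, a4, b1, b3, b4] at h1
  rw [a2, a3, a4, b2, b3, b4] at h2
  rw [b1, b2, b3, b4]
  rcases (lyap (rep x).1 (rep x).2).2 h0 with h | h | h
  · rw [if_pos h, if_pos ((sin_F_fst (rep x).1 (rep x).2).2 h)] at h1
    exact Or.inl ⟨h, (net_vert h).2 h1⟩
  · rw [if_pos h, if_pos ((sin_F_snd (rep x).1 (rep x).2).2 h)] at h2
    exact Or.inl ⟨(net_horiz h).2 h2, h⟩
  · exact Or.inr h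

/-! ### Exponents -/

lemma tendsto_of_lamNorm {a : ℕ → ℝ} {L : ℝ} (h : ∀ n, a n = L ^ n) :
    Tendsto (fun n : ℕ => Real.log (a n) / n) atTop (𝓝 (Real.log L)) := by
  refine tendsto_const_nhds.congr' ?_
  filter_upwards [eventually_ge_atTop 1] with n hn
  have : (n : ℝ) ≠ 0 := by positivity
  rw [h, Real.log_pow]
  field_simp

/-- the value of `χ₊` at critical points -/
lemma chi_value {p : ℝ × ℝ} (h : (Real.sin p.1 = 0 ∧ Real.sin p.2 = 0) ∨
    (Real.cos p.1 = 0 ∧ Real.cos p.2 = 0)) :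
    Tendsto (fun n : ℕ => Real.log (lamNorm (fderiv ℝ (F^[n]) p)) / n) atTop
      (𝓝 (if Real.sin p.1 = 0 then Real.log (17 / 16) else Real.log (290 / 256))) := by
  have hfix : F p = p := F_fixed h
  have hd : ∀ n, fderiv ℝ (F^[n]) p = (DF p.1 p.2) ^ n := fun n =>
    ((hasFDeriv_F p).iterate hfix n).fderiv
  rcases h with ⟨h1, h2⟩ | ⟨h1, h2⟩
  · rw [if_pos h1]
    obtain ⟨σ, hσ, hDF⟩ := DF_saddle h1 h2
    apply tendsto_of_lamNorm
    intro n
    rw [hd, hDF, lamNorm_saddle hσ]
  · have hs : Real.sin p.1 ≠ 0 := by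
      intro h0
      have := Real.sin_sq_add_cos_sq p.1
      rw [h0, h1] at this
      norm_num at this
    rw [if_neg hs]
    obtain ⟨τ, hτ, hDF⟩ := DF_source h1 h2
    apply tendsto_of_lamNorm
    intro n
    rw [hd, hDF, lamNorm_source hτ]

/-! ### Entropy -/

lemma joinEntropy_bound {ρ : Measure T2} [IsProbabilityMeasure ρ]
    (hfix : ∀ᵐ x ∂ρ, ft x = x) {k : ℕ} (P : T2 → Fin k) (n : ℕ) :
    0 ≤ joinEntropy ft ρ P n ∧ joinEntropy ft ρ P n ≤ k + 1 := by
  classical
  have hnn : ∀ w : Fin n → Fin k, 0 ≤ Real.negMulLog (ρ.real (itinerary ft P n ⁻¹' {w})) :=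
    fun w => Real.negMulLog_nonneg measureReal_nonneg measureReal_le_one
  have hle : ∀ w : Fin n → Fin k, Real.negMulLog (ρ.real (itinerary ft P n ⁻¹' {w})) ≤ 1 := by
    intro w
    set t := ρ.real (itinerary ft P n ⁻¹' {w}) with ht
    have h1 : 0 ≤ t := measureReal_nonneg
    have h2 : t ≤ 1 := measureReal_le_one
    rcases eq_or_lt_of_le h1 with h | h
    · rw [← h]; simp
    · unfold Real.negMulLog
      have h3 := Real.one_sub_inv_le_log_of_pos h
      have : t * (1 - t⁻¹) = t - 1 := by field_simp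
      nlinarith
  refine ⟨Finset.sum_nonneg fun w _ => hnn w, ?_⟩
  -- only constant words have positive measure
  have hzero : ∀ w : Fin n → Fin k, (∀ j : Fin k, w ≠ fun _ => j) →
      Real.negMulLog (ρ.real (itinerary ft P n ⁻¹' {w})) = 0 := by
    intro w hw
    have : ρ (itinerary ft P n ⁻¹' {w}) = 0 := by
      rw [measure_eq_zero_iff_ae_notMem]
      filter_upwards [hfix] with x hx hmem
      apply hw (P x)
      rw [← (hmem : itinerary ft P n x = w)]
      ext1 i
      change P (ft^[i] x) = P x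
      rw [Function.iterate_fixed hx]
    rw [measureReal_def, this]
    simp
  have hsum : joinEntropy ft ρ P n = ∑ w ∈ Finset.univ.image (fun (j : Fin k) (_ : Fin n) => j),
      Real.negMulLog (ρ.real (itinerary ft P n ⁻¹' {w})) := by
    unfold joinEntropy
    symm
    apply Finset.sum_subset (Finset.subset_univ _)
    intro w _ hw
    apply hzero w
    intro j hj
    exact hw (Finset.mem_image.2 ⟨j, Finset.mem_univ _, hj.symm⟩)
  rw [hsum]
  calc ∑ w ∈ Finset.univ.image (fun (j : Fin k) (_ : Fin n) => j),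
      Real.negMulLog (ρ.real (itinerary ft P n ⁻¹' {w})) ≤
      ∑ w ∈ Finset.univ.image (fun (j : Fin k) (_ : Fin n) => j), (1 : ℝ) :=
        Finset.sum_le_sum fun w _ => hle w
    _ = ((Finset.univ.image (fun (j : Fin k) (_ : Fin n) => j)).card : ℝ) := by simp
    _ ≤ k := by
        have := Finset.card_image_le (s := (Finset.univ : Finset (Fin k)))
          (f := fun (j : Fin k) (_ : Fin n) => j)
        rw [Finset.card_univ, Fintype.card_fin] at this
        exact_mod_cast this
    _ ≤ k + 1 := by linarith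

lemma entropy_le_zero {ρ : Measure T2} [IsProbabilityMeasure ρ] (hfix : ∀ᵐ x ∂ρ, ft x = x) :
    entropy ft ρ ≤ 0 := by
  unfold entropy
  refine iSup_le fun k => iSup_le fun P => iSup_le fun _ => ?_
  have hlim : Tendsto (fun n : ℕ => joinEntropy ft ρ P n / n) atTop (𝓝 0) := by
    have h1 : Tendsto (fun n : ℕ => ((k : ℝ) + 1) / n) atTop (𝓝 0) :=
      tendsto_const_div_atTop_nhds_zero_nat _
    refine squeeze_zero (fun n => ?_) (fun n => ?_) h1
    · exact div_nonneg (joinEntropy_bound hfix P n).1 (Nat.cast_nonneg n)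
    · exact div_le_div_of_nonneg_right (joinEntropy_bound hfix P n).2 (Nat.cast_nonneg n)
  rw [hlim.limsup_eq]
  simp

/-- **Negative answer to Q1.** There is a real-analytic diffeomorphism of the 2-torus such that every
invariant Borel probability measure `ρ` satisfies `h(ρ) < ∫ χ₊ dρ` (with `χ₊` existing as a limit
`ρ`-almost everywhere and integrable). -/
theorem result : ∃ (f : T2 → T2) (F : ℝ × ℝ → ℝ × ℝ), IsAnalyticDiffeo f F ∧
    ∀ ρ : Measure T2, IsProbabilityMeasure ρ → MeasurePreserving f ρ ρ →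
      (∀ᵐ x ∂ρ, ∀ p : ℝ × ℝ, proj p = x →
        Tendsto (fun n : ℕ => Real.log (lamNorm (fderiv ℝ (F^[n]) p)) / n) atTop
          (𝓝 (chiPlus F x))) ∧
      Integrable (chiPlus F) ρ ∧
      entropy f ρ < ((∫ x, chiPlus F x ∂ρ : ℝ) : EReal) := by
  classical
  refine ⟨ft, F, isDiffeo, fun ρ hρ1 hρ => ?_⟩
  have hcrit := ae_critical hρ
  have hfix : ∀ᵐ x ∂ρ, ft x = x := by
    filter_upwards [hcrit] with x hx
    obtain ⟨b1, b2, b3, b4⟩ := sn_rep x
    rw [b1, b2, b3, b4] at hx
    rw [ft_eq, F_fixed hx, proj_rep]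
  -- value of the exponent
  let g : T2 → ℝ := fun x => if sn x.1 = 0 then Real.log (17 / 16) else Real.log (290 / 256)
  have hval : ∀ x : T2, ((sn x.1 = 0 ∧ sn x.2 = 0) ∨ (cs x.1 = 0 ∧ cs x.2 = 0)) →
      ∀ p : ℝ × ℝ, proj p = x →
      Tendsto (fun n : ℕ => Real.log (lamNorm (fderiv ℝ (F^[n]) p)) / n) atTop (𝓝 (g x)) := by
    intro x hx p hp
    have e1 : sn x.1 = Real.sin p.1 := by rw [← hp]; exact sn_coe _
    have e2 : sn x.2 = Real.sin p.2 := by rw [← hp]; exact sn_coe _
    have e3 : cs x.1 = Real.cos p.1 := by rw [← hp]; exact cs_coe _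
    have e4 : cs x.2 = Real.cos p.2 := by rw [← hp]; exact cs_coe _
    rw [e1, e2, e3, e4] at hx
    have := chi_value hx
    simp only [g, e1]
    exact this
  have hchi : ∀ᵐ x ∂ρ, chiPlus F x = g x := by
    filter_upwards [hcrit] with x hx
    exact (hval x hx (rep x) (proj_rep x)).limUnder_eq
  have hgm : Measurable g := by
    have m1 : Measurable fun x : T2 => sn x.1 := measurable_sn.comp measurable_fst
    exact Measurable.ite (m1 (measurableSet_singleton 0)) measurable_const measurable_const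
  have hl1 : 0 < Real.log (17 / 16) := Real.log_pos (by norm_num)
  have hl2 : Real.log (17 / 16) ≤ Real.log (290 / 256) :=
    Real.log_le_log (by norm_num) (by norm_num)
  have hglow : ∀ x, Real.log (17 / 16) ≤ g x := by
    intro x
    simp only [g]
    split_ifs
    · exact le_refl _
    · exact hl2
  have hgint : Integrable g ρ := by
    refine Integrable.of_bound hgm.aestronglyMeasurable (Real.log (290 / 256))
      (Eventually.of_forall fun x => ?_)
    rw [Real.norm_of_nonneg (hl1.le.trans (hglow x))]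
    simp only [g]
    split_ifs
    · exact hl2
    · exact le_refl _
  have hchi' : chiPlus F =ᵐ[ρ] g := hchi
  refine ⟨?_, hgint.congr hchi'.symm, ?_⟩
  · filter_upwards [hcrit, hchi] with x hx hx2 p hp
    rw [hx2]
    exact hval x hx p hp
  · have h1 : Real.log (17 / 16) ≤ ∫ x, chiPlus F x ∂ρ := by
      rw [integral_congr_ae hchi']
      have h2 : ∫ _x : T2, Real.log (17 / 16) ∂ρ ≤ ∫ x, g x ∂ρ :=
        integral_mono (integrable_const _) hgint hglow
      simpa using h2
    have h3 : (0 : EReal) < ((∫ x, chiPlus F x ∂ρ : ℝ) : EReal) := by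
      exact_mod_cast lt_of_lt_of_le hl1 h1
    exact lt_of_le_of_lt (entropy_le_zero hfix) h3

end Pool.Agent.Results.MP_794bd6_an.HeteroclinicNet
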